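import Mathlib

/-!
# Project OG (MP_d8cc50_co): counting orientations without a copy of an oriented graph

Definitions and the statements of the pieces.  No proofs here.
-/

namespace Pool.Agent.N822.OG

open SimpleGraph

/-- `O` is an orientation of `G`: every edge gets exactly one of its two directions and nothing
else is related. -/
def IsOri {V : Type} (G : SimpleGraph V) (O : V → V → Prop) : Prop :=
  (∀ u v, O u v → G.Adj u v) ∧ (∀ u v, G.Adj u v → (O u v ∧ ¬ O v u) ∨ (O v u ∧ ¬ O u v))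

/-- The directed graph `O` contains a (not necessarily induced) copy of `D`. -/
def HasCopy {W V : Type} (D : W → W → Prop) (O : V → V → Prop) : Prop :=
  ∃ f : W → V, Function.Injective f ∧ ∀ w w', D w w' → O (f w) (f w')

/-- Number of orientations of `G` without a copy of `D`. -/
noncomputable def Dcount {V W : Type} (G : SimpleGraph V) (D : W → W → Prop) : ℕ :=
  Nat.card {O : V → V → Prop // IsOri G O ∧ ¬ HasCopy D O}

/-- Maximum of `Dcount G D` over all graphs on `n` vertices. -/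
noncomputable def Dmax {W : Type} (n : ℕ) (D : W → W → Prop) : ℕ :=
  sSup (Set.range fun G : SimpleGraph (Fin n) => Dcount G D)

/-- The graph `G_M(t) = M' ⊗ K_{p-1}(t)`, where `M'` is `M` with `t` isolated vertices added. -/
def GM {V : Type} (M : SimpleGraph V) (p t : ℕ) :
    SimpleGraph ((V ⊕ Fin t) ⊕ (Fin (p - 1) × Fin t)) where
  Adj x y :=
    match x, y with
    | .inl (.inl u), .inl (.inl v) => M.Adj u v
    | .inl _, .inr _ => True
    | .inr _, .inl _ => True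
    | .inr a, .inr b => a.1 ≠ b.1
    | .inl _, .inl _ => False
  symm := by
    refine ⟨?_⟩
    rintro ((u | i) | a) ((v | j) | b) h <;> simp_all [SimpleGraph.adj_comm, eq_comm]
  loopless := ⟨by rintro ((u | i) | a) h <;> simp_all⟩

/-- `M` belongs to the decomposition family of `H` (with `χ(H) = p + 1`): some `G_M(t)` contains
`H`, and no proper subgraph of `M` has this property. -/
def InDec {W V : Type} (H : SimpleGraph W) (p : ℕ) (M : SimpleGraph V) : Prop :=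
  (∃ t : ℕ, 1 ≤ t ∧ H ⊑ GM M p t) ∧
    ∀ M' : M.Subgraph, M' ≠ ⊤ → ¬ ∃ t : ℕ, 1 ≤ t ∧ H ⊑ GM M'.coe p t

/-- `O` (an orientation of `M`) belongs to the directed decomposition family of the orientation
`D` of `H`. -/
def InDecVec {W V : Type} (H : SimpleGraph W) (D : W → W → Prop) (p : ℕ) (M : SimpleGraph V)
    (O : V → V → Prop) : Prop :=
  InDec H p M ∧ IsOri M O ∧ ∃ t : ℕ, 1 ≤ t ∧
    ∃ O' : ((V ⊕ Fin t) ⊕ (Fin (p - 1) × Fin t)) → ((V ⊕ Fin t) ⊕ (Fin (p - 1) × Fin t)) → Prop,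
      IsOri (GM M p t) O' ∧ HasCopy D O' ∧
      ∃ σ : V ≃ V, ∀ u v, O' (.inl (.inl (σ u))) (.inl (.inl (σ v))) ↔ O u v

/-- The 23 arcs of the oriented graph on 9 vertices
(`a₀ = 0, a₁ = 1, c = 2, b₁ = 3, b₀ = 4, v = 5, x = 6, y = 7, z = 8`). -/
def arcs : List (ℕ × ℕ) :=
  [(5,0),(5,1),(3,5),(4,5),(5,6),(7,5),(1,3),(0,4),(0,2),(1,2),(6,2),(7,2),
   (6,0),(6,1),(6,3),(6,4),(7,0),(7,1),(7,3),(7,4),(8,3),(8,4),(6,8)]

/-- The oriented graph. -/
def Dv (i j : Fin 9) : Prop := ((i : ℕ), (j : ℕ)) ∈ arcs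

instance (i j : Fin 9) : Decidable (Dv i j) := by unfold Dv; infer_instance

/-- Its underlying graph. -/
def Hg : SimpleGraph (Fin 9) where
  Adj i j := Dv i j ∨ Dv j i
  symm := ⟨fun _ _ h => h.symm⟩
  loopless := ⟨by decide⟩

instance : DecidableRel Hg.Adj := fun i j => by unfold Hg; infer_instance

/-- The final target. -/
def S_GOAL : Prop :=
  IsOri Hg Dv ∧ Hg.chromaticNumber = 4 ∧
  (∀ (V : Type) [Finite V] (M : SimpleGraph V) (O : V → V → Prop),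
    InDecVec Hg Dv 3 M O ↔ (InDec Hg 3 M ∧ IsOri M O)) ∧
  ∃ N : ℕ, ∀ n : ℕ, N ≤ n → 2 ^ extremalNumber n Hg < Dmax n Dv

/-! ## Finite facts about the graph -/

/-- The nine colours as natural numbers; number of monochromatic edges. -/
def nbad (c : Fin 9 → Fin 3) : ℕ :=
  (arcs.filter fun e => decide (c (Fin.ofNat 9 e.1) = c (Fin.ofNat 9 e.2))).length

/-- FC1: every 3-colouring has at least two monochromatic edges. -/
def S_FC1 : Prop := ∀ c : Fin 9 → Fin 3, 2 ≤ nbad c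

/-- FC2: if every colour class contains at most one edge then the monochromatic edges are exactly
`{1,3}, {4,5}, {6,8}` (three different colours) or `{0,4}, {3,5}, {6,8}` (three different
colours). -/
def S_FC2 : Prop :=
  ∀ c : Fin 9 → Fin 3,
    (∀ i j k l : Fin 9, Dv i j → Dv k l → c i = c j → c k = c l → c i = c k → i = k ∧ j = l) →
    (c 1 = c 3 ∧ c 4 = c 5 ∧ c 6 = c 8 ∧ c 1 ≠ c 4 ∧ c 1 ≠ c 6 ∧ c 4 ≠ c 6) ∨
    (c 0 = c 4 ∧ c 3 = c 5 ∧ c 6 = c 8 ∧ c 0 ≠ c 3 ∧ c 0 ≠ c 6 ∧ c 3 ≠ c 6)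

/-- CHR: the chromatic number is 4. -/
def S_CHR : Prop := Hg.chromaticNumber = 4

/-! ## The decomposition family -/

/-- `M` is a matching with two edges (no further vertices). -/
def IsTwoK2 {V : Type} (M : SimpleGraph V) : Prop :=
  ∃ a b c d : V, a ≠ c ∧ a ≠ d ∧ b ≠ c ∧ b ≠ d ∧ M.Adj a b ∧ M.Adj c d ∧
    (∀ v, v = a ∨ v = b ∨ v = c ∨ v = d) ∧
    (∀ u v, M.Adj u v → (u = a ∧ v = b) ∨ (u = b ∧ v = a) ∨ (u = c ∧ v = d) ∨ (u = d ∧ v = c))

/-- `M` is a path with two edges `a - b - c` (no further vertices). -/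
def IsP3 {V : Type} (M : SimpleGraph V) : Prop :=
  ∃ a b c : V, a ≠ c ∧ M.Adj a b ∧ M.Adj b c ∧ (∀ v, v = a ∨ v = b ∨ v = c) ∧
    (∀ u v, M.Adj u v → (u = a ∧ v = b) ∨ (u = b ∧ v = a) ∨ (u = b ∧ v = c) ∨ (u = c ∧ v = b))

/-- DEC1: the members of the decomposition family are `2 K₂` and the path with two edges. -/
def S_DEC1 : Prop :=
  ∀ (V : Type) [Finite V] (M : SimpleGraph V), InDec Hg 3 M → IsTwoK2 M ∨ IsP3 M

/-- DEC2: every orientation of these two graphs is realised. -/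
def S_DEC2 : Prop :=
  ∀ (V : Type) [Finite V] (M : SimpleGraph V) (O : V → V → Prop), (IsTwoK2 M ∨ IsP3 M) →
    IsOri M O → ∃ t : ℕ, 1 ≤ t ∧
    ∃ O' : ((V ⊕ Fin t) ⊕ (Fin (3 - 1) × Fin t)) → ((V ⊕ Fin t) ⊕ (Fin (3 - 1) × Fin t)) → Prop,
      IsOri (GM M 3 t) O' ∧ HasCopy Dv O' ∧
      ∃ σ : V ≃ V, ∀ u v, O' (.inl (.inl (σ u))) (.inl (.inl (σ v))) ↔ O u v

/-! ## Counting orientations -/

/-- CNT: the number of orientations of a finite graph that contain a given set `P` of arcs. -/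
def S_CNT : Prop :=
  ∀ (V : Type) [Fintype V] (G : SimpleGraph V) (P : Finset (V × V)),
    (∀ e ∈ P, G.Adj e.1 e.2) → (∀ e ∈ P, (e.2, e.1) ∉ P) →
    P.card ≤ G.edgeSet.ncard ∧
    Nat.card {O : V → V → Prop // IsOri G O ∧ ∀ e ∈ P, O e.1 e.2}
      = 2 ^ (G.edgeSet.ncard - P.card)

/-- The Turán graph with three classes (residues modulo 3) and one edge `{i, i + 3}` in each
class. -/
def Gst (n : ℕ) : SimpleGraph (Fin n) where
  Adj u v := u.val % 3 ≠ v.val % 3 ∨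
    (u.val % 3 = v.val % 3 ∧ u ≠ v ∧ u.val < 6 ∧ v.val < 6)
  symm := ⟨by
    rintro u v (h | ⟨h1, h2, h3, h4⟩)
    · exact Or.inl (Ne.symm h)
    · exact Or.inr ⟨h1.symm, h2.symm, h4, h3⟩⟩
  loopless := ⟨by
    rintro u (h | ⟨h1, h2, h3, h4⟩)
    · exact h rfl
    · exact h2 rfl⟩

/-- EG: number of edges of `Gst n`. -/
def S_EG : Prop := ∀ n : ℕ, 6 ≤ n → (Gst n).edgeSet.ncard = n ^ 2 / 3 + 3

/-- LB: more than half of the orientations of `Gst n` contain no copy of `Dv`. -/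
def S_LB : Prop := ∀ n : ℕ, 6 ≤ n → 2 ^ (n ^ 2 / 3 + 2) < Dcount (Gst n) Dv

/-! ## The extremal number -/

/-- Three finite sets of size `t`, completely joined, with one of the three patterns inside:
two disjoint edges in one class, a path with two edges in one class, or an edge in every class. -/
def Conf {V : Type} (G : SimpleGraph V) (t : ℕ) : Prop :=
  ∃ A : Fin 3 → Finset V, (∀ i, (A i).card = t) ∧
    (∀ i j, i ≠ j → ∀ x ∈ A i, ∀ y ∈ A j, G.Adj x y) ∧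
    ((∃ i, ∃ a ∈ A i, ∃ b ∈ A i, ∃ c ∈ A i, ∃ d ∈ A i,
        a ≠ c ∧ a ≠ d ∧ b ≠ c ∧ b ≠ d ∧ G.Adj a b ∧ G.Adj c d) ∨
     (∃ i, ∃ a ∈ A i, ∃ b ∈ A i, ∃ c ∈ A i, a ≠ c ∧ G.Adj a b ∧ G.Adj b c) ∨
     (∀ i, ∃ a ∈ A i, ∃ b ∈ A i, G.Adj a b))

/-- HX: the three patterns contain the graph `Hg`. -/
def S_HX : Prop := ∀ (V : Type) [Finite V] (G : SimpleGraph V), Conf G 9 → Hg ⊑ G

/-- K3: a large graph with minimum degree at least `⌊2n/3⌋` contains a complete tripartite graph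
with classes of size `T` (from `eventually_completeEquipartiteGraph_isContained_of_minDegree`). -/
def S_K3 : Prop :=
  ∀ T : ℕ, ∃ n₀ : ℕ, ∀ (V : Type) [Fintype V] (G : SimpleGraph V), n₀ ≤ Fintype.card V →
    (∀ v, 2 * Fintype.card V / 3 ≤ (G.neighborSet v).ncard) →
    ∃ A : Fin 3 → Finset V, (∀ i, (A i).card = T) ∧
      ∀ i j, i ≠ j → ∀ x ∈ A i, ∀ y ∈ A j, G.Adj x y

/-- CLS: classification of the vertices by their neighbours in a complete tripartite subgraph. -/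
def S_CLS : Prop :=
  ∀ (V : Type) [Fintype V] (G : SimpleGraph V) (T M t : ℕ), 1 ≤ t → t + M ≤ T →
    (∀ v, 2 * Fintype.card V / 3 ≤ (G.neighborSet v).ncard) →
    ∀ A : Fin 3 → Finset V, (∀ i, (A i).card = T) →
      (∀ i j, i ≠ j → ∀ x ∈ A i, ∀ y ∈ A j, G.Adj x y) →
      (∀ x, ∃ i, {y | y ∈ A i ∧ G.Adj x y}.ncard < t) →
      ∃ R : Finset V,
        (∀ x, x ∉ R → ∃ i, x ∉ A 0 ∧ x ∉ A 1 ∧ x ∉ A 2 ∧ {y | y ∈ A i ∧ G.Adj x y}.ncard < t ∧
          ∀ j, j ≠ i → T - M ≤ {y | y ∈ A j ∧ G.Adj x y}.ncard) ∧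
        R.card * (M + 1) ≤ Fintype.card V * t + 5 * T ^ 2 + 3 * T * (M + 1)

/-- A set spans at most one edge. -/
def OneEdge {V : Type} (G : SimpleGraph V) (U : Set V) : Prop :=
  ∀ a ∈ U, ∀ b ∈ U, ∀ c ∈ U, ∀ d ∈ U, G.Adj a b → G.Adj c d →
    (a = c ∧ b = d) ∨ (a = d ∧ b = c)

/-- STR: the rough structure of a graph without the patterns. -/
def S_STR : Prop :=
  ∀ t q : ℕ, 4 ≤ t → 1 ≤ q → ∃ n₀ : ℕ, ∀ (V : Type) [Fintype V] (G : SimpleGraph V),
    n₀ ≤ Fintype.card V → (∀ v, 2 * Fintype.card V / 3 ≤ (G.neighborSet v).ncard) →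
    ¬ Conf G t →
    ∃ U : Fin 3 → Finset V, (∀ i j, i ≠ j → Disjoint (U i) (U j)) ∧
      (∀ i, OneEdge G (U i : Set V)) ∧
      q * {v | ∀ i, v ∉ U i}.ncard ≤ Fintype.card V

/-- SIZ: sizes of the classes and numbers of missing neighbours. -/
def S_SIZ : Prop :=
  ∀ (V : Type) [Fintype V] (G : SimpleGraph V) (q : ℕ) (U : Fin 3 → Finset V), 1 ≤ q →
    (∀ v, 2 * Fintype.card V / 3 ≤ (G.neighborSet v).ncard) →
    (∀ i j, i ≠ j → Disjoint (U i) (U j)) → (∀ i, OneEdge G (U i : Set V)) →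
    q * {v | ∀ i, v ∉ U i}.ncard ≤ Fintype.card V →
    (∀ i, 3 * (U i).card ≤ Fintype.card V + 5) ∧
    (∀ i, q * Fintype.card V ≤ 3 * q * (U i).card + 3 * Fintype.card V + 10 * q) ∧
    (∀ i, ∀ y ∈ U i, q * {z | z ∉ U i ∧ ¬ G.Adj y z}.ncard ≤ Fintype.card V + 5 * q)

/-- GRD: greedy choice of two further classes. -/
def S_GRD : Prop :=
  ∀ (V : Type) [Fintype V] (G : SimpleGraph V) (t m : ℕ) (A₁ U₂ U₃ : Finset V), A₁.card ≤ t →
    (∀ x ∈ A₁, {z | z ∈ U₂ ∧ ¬ G.Adj x z}.ncard ≤ m) →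
    (∀ x ∈ A₁, {z | z ∈ U₃ ∧ ¬ G.Adj x z}.ncard ≤ m) →
    (∀ y ∈ U₂, {z | z ∈ U₃ ∧ ¬ G.Adj y z}.ncard ≤ m) →
    t * m + t ≤ U₂.card → 2 * t * m + t ≤ U₃.card →
    ∃ A₂ A₃ : Finset V, A₂ ⊆ U₂ ∧ A₃ ⊆ U₃ ∧ A₂.card = t ∧ A₃.card = t ∧
      (∀ x ∈ A₁, ∀ y ∈ A₂, G.Adj x y) ∧ (∀ x ∈ A₁, ∀ y ∈ A₃, G.Adj x y) ∧
      (∀ x ∈ A₂, ∀ y ∈ A₃, G.Adj x y)

/-- PAR: a graph without the patterns has a partition into three classes, each spanning at most
one edge, none of them small. -/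
def S_PAR : Prop :=
  ∀ t : ℕ, 4 ≤ t → ∃ n₀ : ℕ, ∀ (V : Type) [Fintype V] (G : SimpleGraph V),
    n₀ ≤ Fintype.card V → (∀ v, 2 * Fintype.card V / 3 ≤ (G.neighborSet v).ncard) →
    ¬ Conf G t →
    ∃ c : V → Fin 3, (∀ i, OneEdge G {v | c v = i}) ∧ ∀ i, t ≤ {v | c v = i}.ncard

/-- FIN: the final count. -/
def S_FIN : Prop :=
  ∀ (V : Type) [Fintype V] (G : SimpleGraph V) (t : ℕ), 2 ≤ t →
    Fintype.card V ^ 2 / 3 + 3 ≤ G.edgeSet.ncard →
    ∀ c : V → Fin 3, (∀ i, OneEdge G {v | c v = i}) → (∀ i, t ≤ {v | c v = i}.ncard) →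
    Conf G t

/-- DESC: deleting vertices of small degree. -/
def S_DESC : Prop :=
  ∀ (Q : ∀ (V : Type) [Fintype V], SimpleGraph V → Prop),
    (∀ (V : Type) [Fintype V] (W : Type) [Fintype W] (G : SimpleGraph V) (G' : SimpleGraph W),
      G' ⊑ G → Q W G' → Q V G) →
    (∃ n₀ : ℕ, ∀ (V : Type) [Fintype V] (G : SimpleGraph V), n₀ ≤ Fintype.card V →
      (∀ v, 2 * Fintype.card V / 3 ≤ (G.neighborSet v).ncard) →
      Fintype.card V ^ 2 / 3 + 3 ≤ G.edgeSet.ncard → Q V G) →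
    ∃ n₁ : ℕ, ∀ (V : Type) [Fintype V] (G : SimpleGraph V), n₁ ≤ Fintype.card V →
      Fintype.card V ^ 2 / 3 + 3 ≤ G.edgeSet.ncard → Q V G

/-- EX: the extremal number. -/
def S_EX : Prop := ∃ N : ℕ, ∀ n : ℕ, N ≤ n → extremalNumber n Hg ≤ n ^ 2 / 3 + 2

end Pool.Agent.N822.OG
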