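import Pool.Agent.N822.OG.Stm

/-! Assembly of project OG. -/

namespace Pool.Agent.N822.OG

open SimpleGraph

lemma conf_mono {V W : Type} {G : SimpleGraph V} {G' : SimpleGraph W} {t : ℕ}
    (h : G' ⊑ G) (hc : Conf G' t) : Conf G t := by
  classical
  obtain ⟨f⟩ := h
  obtain ⟨A, hA1, hA2, hA3⟩ := hc
  have hadj : ∀ x y, G'.Adj x y → G.Adj (f x) (f y) := fun x y hxy => f.toHom.map_adj hxy
  have hinj : Function.Injective f := f.injective
  refine ⟨fun i => (A i).map ⟨f, hinj⟩, fun i => by rw [Finset.card_map, hA1], ?_, ?_⟩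
  · intro i j hij x hx y hy
    obtain ⟨x', hx', rfl⟩ := Finset.mem_map.mp hx
    obtain ⟨y', hy', rfl⟩ := Finset.mem_map.mp hy
    exact hadj _ _ (hA2 i j hij x' hx' y' hy')
  · have mm : ∀ i x, x ∈ A i → f x ∈ (A i).map ⟨f, hinj⟩ := fun i x hx =>
      Finset.mem_map.mpr ⟨x, hx, rfl⟩
    rcases hA3 with ⟨i, a, ha, b, hb, c, hc, d, hd, h1, h2, h3, h4, h5, h6⟩ |
      ⟨i, a, ha, b, hb, c, hc, h1, h2, h3⟩ | h
    · exact Or.inl ⟨i, f a, mm i a ha, f b, mm i b hb, f c, mm i c hc, f d, mm i d hd,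
        hinj.ne h1, hinj.ne h2, hinj.ne h3, hinj.ne h4, hadj _ _ h5, hadj _ _ h6⟩
    · exact Or.inr (Or.inl ⟨i, f a, mm i a ha, f b, mm i b hb, f c, mm i c hc,
        hinj.ne h1, hadj _ _ h2, hadj _ _ h3⟩)
    · refine Or.inr (Or.inr fun i => ?_)
      obtain ⟨a, ha, b, hb, hab⟩ := h i
      exact ⟨f a, mm i a ha, f b, mm i b hb, hadj _ _ hab⟩

theorem ex_of (hHX : S_HX) (hPAR : S_PAR) (hFIN : S_FIN) (hDESC : S_DESC) : S_EX := by
  classical
  obtain ⟨n₁, hn₁⟩ := hDESC (fun V _ G => Conf G 9)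
    (fun V _ W _ G G' h hc => conf_mono h hc) (by
      obtain ⟨n₀, hn₀⟩ := hPAR 9 (by norm_num)
      refine ⟨n₀, fun V _ G hV hdeg hE => ?_⟩
      by_contra hcon
      obtain ⟨c, hc1, hc2⟩ := hn₀ V G hV hdeg hcon
      exact hcon (hFIN V G 9 (by norm_num) hE c hc1 hc2))
  refine ⟨n₁, fun n hn => ?_⟩
  have key : extremalNumber (Fintype.card (Fin n)) Hg ≤ n ^ 2 / 3 + 2 := by
    rw [extremalNumber_le_iff]
    intro G _ hfree
    by_contra hcon
    push Not at hcon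
    apply hfree
    apply hHX (Fin n) G
    apply hn₁ (Fin n) G (by simpa using hn)
    rw [Fintype.card_fin]
    have h1 : G.edgeSet.ncard = G.edgeFinset.card := by
      rw [← coe_edgeFinset, Set.ncard_coe_finset]
    omega
  simpa using key

theorem goal (hORI : IsOri Hg Dv) (hCHR : S_CHR) (hDEC1 : S_DEC1) (hDEC2 : S_DEC2)
    (hLB : S_LB) (hHX : S_HX) (hPAR : S_PAR) (hFIN : S_FIN) (hDESC : S_DESC) : S_GOAL := by
  refine ⟨hORI, hCHR, ?_, ?_⟩
  · intro V _ M O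
    constructor
    · rintro ⟨h1, h2, -⟩
      exact ⟨h1, h2⟩
    · rintro ⟨h1, h2⟩
      obtain ⟨t, ht, O', hO', hc, hσ⟩ := hDEC2 V M O (hDEC1 V M h1) h2
      exact ⟨h1, h2, t, ht, O', hO', hc, hσ⟩
  · obtain ⟨N, hN⟩ := ex_of hHX hPAR hFIN hDESC
    refine ⟨max N 6, fun n hn => ?_⟩
    have h1 := hN n (le_trans (le_max_left _ _) hn)
    have h2 := hLB n (le_trans (le_max_right _ _) hn)
    have h3 : Dcount (Gst n) Dv ≤ Dmax n Dv :=
      le_csSup (Set.finite_range _).bddAbove ⟨Gst n, rfl⟩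
    calc 2 ^ extremalNumber n Hg ≤ 2 ^ (n ^ 2 / 3 + 2) := Nat.pow_le_pow_right (by norm_num) h1
      _ < Dcount (Gst n) Dv := h2
      _ ≤ Dmax n Dv := h3

end Pool.Agent.N822.OG
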